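import Mathlib

namespace Pool.Agent.Results.MP_f51a11_co.NotDowling

open Finset

/-- the size function `h(L(p) ∩ L(q); n)`: the largest number `m` of points of a simple rank-`n`
matroid given by vectors `v` over `GF(p)` and by vectors `w` over `GF(q)` with the same
independent sets -/
noncomputable def sizeFn (p q n : ℕ) : ℕ :=
  sSup {m : ℕ | ∃ v : Fin m → (Fin n → ZMod p), ∃ w : Fin m → (Fin n → ZMod q),
    (∀ S : Finset (Fin m),
      (LinearIndependent (ZMod p) (fun x : S => v (x : Fin m)) ↔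
        LinearIndependent (ZMod q) (fun x : S => w (x : Fin m)))) ∧
    (∀ S : Finset (Fin m), S.card ≤ 2 →
      LinearIndependent (ZMod p) (fun x : S => v (x : Fin m))) ∧
    Submodule.span (ZMod p) (Set.range v) = ⊤}

section piv
variable {α ι F : Type} [DecidableEq α] [Field F]

def Ind (v : α → ι → F) (S : Finset α) : Prop :=
  ∀ g : α → F, ∑ b ∈ S, g b • v b = 0 → ∀ b ∈ S, g b = 0

theorem ind_iff (v : α → ι → F) (S : Finset α) :
    LinearIndependent F (fun x : S => v (x : α)) ↔ Ind v S := by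
  rw [Fintype.linearIndependent_iff]
  constructor
  · intro h g hg b hb
    exact h (fun x => g x) (by rw [← hg]; exact sum_coe_sort S (fun b => g b • v b)) ⟨b, hb⟩
  · intro h g hg b
    have := h (fun x => if hx : x ∈ S then g ⟨x, hx⟩ else 0) (by
      rw [← hg, ← sum_coe_sort S]
      apply sum_congr rfl
      intro x _
      simp) b b.2
    simpa using this

theorem pivot (v : α → ι → F) (S : Finset α) (a : α) (ha : a ∉ S) (i : ι) (hi : v a i ≠ 0) :
    Ind v (insert a S) ↔ Ind (fun b => v a i • v b - v b i • v a) S := by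
  constructor
  · intro h g hg b hb
    have h1 := h (fun x => if x = a then -∑ c ∈ S, g c * v c i else g x * v a i) (by
      rw [sum_insert ha, if_pos rfl, ← hg]
      simp only [smul_sub, sum_sub_distrib, smul_smul, ← sum_smul]
      rw [sum_congr rfl (g := fun x => (g x * v a i) • v x)
        (fun x hx => by rw [if_neg (ne_of_mem_of_not_mem hx ha)])]
      rw [neg_smul]; abel) b (mem_insert_of_mem hb)
    rw [if_neg (ne_of_mem_of_not_mem hb ha)] at h1
    exact (mul_eq_zero.1 h1).resolve_right hi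
  · intro h g hg
    rw [sum_insert ha] at hg
    have h1 : g a * v a i + ∑ c ∈ S, g c * v c i = 0 := by
      have := congrFun hg i
      simpa [Finset.sum_apply] using this
    have h2 := h g (by
      simp only [smul_sub, sum_sub_distrib, smul_smul, ← sum_smul]
      have e1 : ∑ c ∈ S, (g c * v a i) • v c = v a i • ∑ c ∈ S, g c • v c := by
        rw [smul_sum]; apply sum_congr rfl; intro c _; rw [smul_smul, mul_comm]
      rw [e1, eq_neg_of_add_eq_zero_right hg, eq_neg_of_add_eq_zero_right h1, smul_neg, smul_smul,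
        neg_smul, mul_comm]
      abel)
    intro b hb
    rcases mem_insert.1 hb with rfl | hb
    · rw [sum_eq_zero (fun c hc => by rw [h2 c hc, zero_mul]), add_zero] at h1
      exact (mul_eq_zero.1 h1).resolve_right hi
    · exact h2 b hb

theorem not_ind_zero (v : α → ι → F) (S : Finset α) (a : α) (ha : a ∈ S) (h0 : v a = 0) :
    ¬ Ind v S := by
  intro h
  have := h (fun x => if x = a then 1 else 0) (by
    apply sum_eq_zero
    intro b _
    split_ifs with hb
    · rw [hb, h0, smul_zero]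
    · rw [zero_smul]) a ha
  simp at this

end piv

def Good (c : ℤ) : Prop := ¬ (5 : ℤ) ∣ c ∧ ¬ (7 : ℤ) ∣ c

theorem Good.mul {a b : ℤ} (ha : Good a) (hb : Good b) : Good (a * b) := by
  constructor
  · intro h
    rcases (Int.prime_iff_natAbs_prime.2 (by norm_num) : Prime (5 : ℤ)).dvd_or_dvd h with h | h
    · exact ha.1 h
    · exact hb.1 h
  · intro h
    rcases (Int.prime_iff_natAbs_prime.2 (by norm_num) : Prime (7 : ℤ)).dvd_or_dvd h with h | h
    · exact ha.2 h
    · exact hb.2 h

theorem Good.ne {a : ℤ} (ha : Good a) : a ≠ 0 := by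
  rintro rfl; exact ha.1 (dvd_zero _)

theorem Good.small {a : ℤ} (ha : Good a) (m : ℤ) (h1 : -4 ≤ m) (h2 : m ≤ 4) :
    m * a = 0 ∨ Good (m * a) := by
  by_cases hm : m = 0
  · left; rw [hm, zero_mul]
  · right
    refine Good.mul ⟨?_, ?_⟩ ha <;> omega

section ty
variable {ι : Type} [DecidableEq ι]

def Ty (o : ι) (t : ι → ℤ) : Prop :=
  (∃ i c, (c = 0 ∨ Good c) ∧ t = Pi.single i c) ∨
  (∃ i j x s, i ≠ j ∧ i ≠ o ∧ j ≠ o ∧ Good x ∧ (s = 1 ∨ s = -1) ∧
    t = Pi.single i x + Pi.single j (s * x)) ∨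
  (∃ j x m, j ≠ o ∧ Good x ∧ (m = 1 ∨ m = -1 ∨ m = 2 ∨ m = -2) ∧
    t = Pi.single o x + Pi.single j (m * x))

theorem Ty.smul {o : ι} {t : ι → ℤ} (h : Ty o t) {p : ℤ} (hp : Good p) : Ty o (p • t) := by
  rcases h with ⟨i, c, hc, rfl⟩ | ⟨i, j, x, s, h1, h2, h3, hx, hs, rfl⟩ | ⟨j, x, m, h1, hx, hm, rfl⟩
  · refine Or.inl ⟨i, p * c, ?_, ?_⟩
    · rcases hc with rfl | hc
      · simp
      · exact Or.inr (hp.mul hc)
    · rw [← smul_eq_mul, Pi.single_smul']
  · refine Or.inr (Or.inl ⟨i, j, p * x, s, h1, h2, h3, hp.mul hx, hs, ?_⟩)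
    ext k; simp only [Pi.smul_apply, Pi.add_apply, Pi.single_apply, smul_eq_mul]
    split_ifs <;> ring
  · refine Or.inr (Or.inr ⟨j, p * x, m, h1, hp.mul hx, hm, ?_⟩)
    ext k; simp only [Pi.smul_apply, Pi.add_apply, Pi.single_apply, smul_eq_mul]
    split_ifs <;> ring

def Other (o : ι) (x : ℤ) (k : ι) (y : ℤ) : Prop :=
  y = 0 ∨ (k ≠ o ∧ ∃ s, (s = 1 ∨ s = -1) ∧ y = s * x) ∨
    (k = o ∧ Good y ∧ ∃ m, (m = 1 ∨ m = -1 ∨ m = 2 ∨ m = -2) ∧ x = m * y)

theorem Ty.decomp {o : ι} {t : ι → ℤ} (h : Ty o t) {i : ι} (hi : i ≠ o) (h0 : t i ≠ 0) :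
    ∃ x k y, Good x ∧ k ≠ i ∧ Other o x k y ∧ t = Pi.single i x + Pi.single k y := by
  rcases h with ⟨i', c, hc, rfl⟩ | ⟨i', j, x, s, h1, h2, h3, hx, hs, rfl⟩ |
    ⟨j, x, m, h1, hx, hm, rfl⟩
  · by_cases e : i = i'
    · subst e
      refine ⟨c, o, 0, hc.resolve_left (by simpa using h0), hi.symm, Or.inl rfl, by simp⟩
    · simp [e] at h0
  · by_cases e : i = i'
    · subst e
      exact ⟨x, j, s * x, hx, h1.symm, Or.inr (Or.inl ⟨h3, s, hs, rfl⟩), rfl⟩
    · by_cases e2 : i = j
      · subst e2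
        refine ⟨s * x, i', x, ?_, h1, Or.inr (Or.inl ⟨h2, s, hs, ?_⟩), add_comm _ _⟩
        · exact (hx.small s (by omega) (by omega)).resolve_left
            (mul_ne_zero (by omega) hx.ne)
        · rcases hs with rfl | rfl <;> ring
      · simp [e, e2] at h0
  · by_cases e2 : i = j
    · subst e2
      refine ⟨m * x, o, x, ?_, hi.symm, Or.inr (Or.inr ⟨rfl, hx, m, hm, rfl⟩), add_comm _ _⟩
      exact (hx.small m (by omega) (by omega)).resolve_left (mul_ne_zero (by omega) hx.ne)
    · simp [hi, e2] at h0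

theorem combine {o : ι} {p q u w : ℤ} {j k : ι} (hp : Good p) (hu : Good u)
    (h1 : Other o p j q) (h2 : Other o u k w) :
    Ty o (Pi.single k (p * w) + Pi.single j (-(u * q))) := by
  have gq : q = 0 ∨ Good q := by
    rcases h1 with h | ⟨-, s, hs, rfl⟩ | ⟨-, h, -⟩
    · exact Or.inl h
    · exact hp.small s (by omega) (by omega)
    · exact Or.inr h
  have gw : w = 0 ∨ Good w := by
    rcases h2 with h | ⟨-, s, hs, rfl⟩ | ⟨-, h, -⟩
    · exact Or.inl h
    · exact hu.small s (by omega) (by omega)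
    · exact Or.inr h
  by_cases hq : q = 0
  · subst hq
    refine Or.inl ⟨k, p * w, ?_, by simp⟩
    rcases gw with rfl | gw
    · simp
    · exact Or.inr (hp.mul gw)
  by_cases hw : w = 0
  · subst hw
    refine Or.inl ⟨j, -1 * (u * q), (hu.mul (gq.resolve_left hq)).small _ (by omega) (by omega),
      by simp⟩
  replace gq := gq.resolve_left hq
  replace gw := gw.resolve_left hw
  rcases h1 with h | ⟨hj, s, hs, rfl⟩ | ⟨rfl, -, m, hm, rfl⟩
  · exact absurd h hq
  · rcases h2 with h | ⟨hk, s', hs', rfl⟩ | ⟨rfl, -, m', hm', rfl⟩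
    · exact absurd h hw
    · by_cases e : k = j
      · subst e
        refine Or.inl ⟨k, (s' - s) * (p * u), (hp.mul hu).small _ (by omega) (by omega), ?_⟩
        rw [← Pi.single_add]; congr 1; ring
      · refine Or.inr (Or.inl ⟨k, j, p * (s' * u), -(s * s'), e, hk, hj, hp.mul gw, ?_, ?_⟩)
        · rcases hs with rfl | rfl <;> rcases hs' with rfl | rfl <;> norm_num
        · congr 2; rcases hs' with rfl | rfl <;> ring
    · refine Or.inr (Or.inr ⟨j, p * w, -(m' * s), hj, hp.mul gw, ?_, ?_⟩)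
      · rcases hs with rfl | rfl <;> omega
      · congr 2; ring
  · rcases h2 with h | ⟨hk, s', hs', rfl⟩ | ⟨rfl, -, m', hm', rfl⟩
    · exact absurd h hw
    · refine Or.inr (Or.inr ⟨k, -(u * q), -(m * s'), hk, ?_, ?_, ?_⟩)
      · have := (hu.mul gq).small (-1) (by omega) (by omega)
        rw [neg_one_mul] at this
        exact this.resolve_left (neg_ne_zero.2 (hu.mul gq).ne)
      · rcases hs' with rfl | rfl <;> omega
      · rw [add_comm]; congr 2; ring
    · refine Or.inl ⟨k, (m - m') * (q * w), (gq.mul gw).small _ (by omega) (by omega), ?_⟩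
      rw [← Pi.single_add]; congr 1; ring

theorem Ty.step {o : ι} {a : ι → ℤ} (ha : Ty o a) (h0 : a ≠ 0) :
    ∃ i, Good (a i) ∧ ∀ b, Ty o b → Ty o (a i • b - b i • a) := by
  by_cases h : ∃ i, i ≠ o ∧ a i ≠ 0
  · obtain ⟨i, hi, hai⟩ := h
    obtain ⟨p, j, q, hp, hj, h1, rfl⟩ := ha.decomp hi hai
    have e : (Pi.single i p + Pi.single j q : ι → ℤ) i = p := by simp [hj.symm]
    refine ⟨i, by rw [e]; exact hp, fun b hb => ?_⟩
    rw [e]
    by_cases hbi : b i = 0
    · rw [hbi, zero_smul, sub_zero]; exact hb.smul hp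
    · obtain ⟨u, k, w, hu, hk, h2, rfl⟩ := hb.decomp hi hbi
      have e2 : (Pi.single i u + Pi.single k w : ι → ℤ) i = u := by
        simp [hk.symm]
      rw [e2]
      convert combine hp hu h1 h2 using 1
      ext l
      simp only [Pi.smul_apply, Pi.add_apply, Pi.sub_apply, Pi.single_apply, smul_eq_mul]
      split_ifs <;> ring
  · push Not at h
    have hc : ∃ c, Good c ∧ a = Pi.single o c := by
      rcases ha with ⟨i, c, hc, rfl⟩ | ⟨i, j, x, s, h1, h2, h3, hx, hs, rfl⟩ |
        ⟨j, x, m, h1, hx, hm, rfl⟩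
      · have hc' : c ≠ 0 := by rintro rfl; simp at h0
        by_cases e : i = o
        · subst e; exact ⟨c, hc.resolve_left hc', rfl⟩
        · exact absurd (by simpa using h i e) hc'
      · exact absurd (by simpa [Pi.single_apply, h1] using h i h2) hx.ne
      · have := h j h1
        simp [h1, hx.ne] at this
        omega
    obtain ⟨c, hc, rfl⟩ := hc
    refine ⟨o, by simpa using hc, fun b hb => ?_⟩
    rw [Pi.single_eq_same]
    by_cases hbi : b o = 0
    · rw [hbi, zero_smul, sub_zero]; exact hb.smul hc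
    · rcases hb with ⟨i, d, hd, rfl⟩ | ⟨i, j, x, s, h1, h2, h3, hx, hs, rfl⟩ |
        ⟨j, x, m, h1, hx, hm, rfl⟩
      · by_cases e : i = o
        · subst e
          refine Or.inl ⟨i, 0, Or.inl rfl, ?_⟩
          ext l
          simp only [Pi.smul_apply, Pi.sub_apply, Pi.single_apply, smul_eq_mul]
          split_ifs <;> ring
        · simp [Ne.symm e] at hbi
      · simp [h2.symm, h3.symm] at hbi
      · refine Or.inl ⟨j, m * (c * x), (hc.mul hx).small _ (by omega) (by omega), ?_⟩
        ext l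
        simp only [Pi.smul_apply, Pi.add_apply, Pi.sub_apply, Pi.single_apply, smul_eq_mul,
          if_neg h1.symm]
        split_ifs <;> ring

instance : Fact (Nat.Prime 5) := ⟨by norm_num⟩
instance : Fact (Nat.Prime 7) := ⟨by norm_num⟩

theorem transfer {α : Type} [DecidableEq α] (o : ι) (S : Finset α) :
    ∀ z : α → ι → ℤ, (∀ b ∈ S, Ty o (z b)) →
      (Ind (fun b k => (z b k : ZMod 5)) S ↔ Ind (fun b k => (z b k : ZMod 7)) S) := by
  induction S using Finset.induction_on with
  | empty => intro z _; simp [Ind]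
  | insert a S ha ih =>
    intro z hz
    by_cases h0 : z a = 0
    · exact iff_of_false (not_ind_zero _ _ a (mem_insert_self _ _) (by ext k; simp [h0]))
        (not_ind_zero _ _ a (mem_insert_self _ _) (by ext k; simp [h0]))
    · obtain ⟨i, hi, hb⟩ := (hz a (mem_insert_self _ _)).step h0
      rw [pivot _ S a ha i (by
          rw [Ne, ZMod.intCast_zmod_eq_zero_iff_dvd]; exact hi.1),
        pivot _ S a ha i (by
          rw [Ne, ZMod.intCast_zmod_eq_zero_iff_dvd]; exact hi.2)]
      have := ih (fun b => z a i • z b - z b i • z a)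
        (fun b hb' => hb _ (hz b (mem_insert_of_mem hb')))
      convert this using 2 <;> ext b k <;> simp

end ty

abbrev Idx (k : ℕ) : Type :=
  Fin (k + 1) ⊕ ({p : Fin (k + 1) × Fin (k + 1) // p.1 < p.2} × Bool) ⊕
    ({j : Fin (k + 1) // j ≠ 0} × Bool)

theorem card_idx (k : ℕ) : Fintype.card (Idx k) = 2 * (k + 1).choose 2 + (k + 1) + 2 * k := by
  have h1 : Fintype.card {p : Fin (k + 1) × Fin (k + 1) // p.1 < p.2} = (k + 1).choose 2 := by
    rw [Fintype.card_subtype, ← univ_product_univ, card_product_filter_lt]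
    simp
  simp only [Fintype.card_sum, Fintype.card_prod, h1, Fintype.card_fin, Fintype.card_bool,
    Fintype.card_subtype_compl, Fintype.card_unique]
  omega

def lead {k : ℕ} : Idx k → Fin (k + 1)
  | .inl i => i
  | .inr (.inl p) => p.1.1.1
  | .inr (.inr _) => 0

def sec {k : ℕ} : Idx k → Fin (k + 1)
  | .inl i => i
  | .inr (.inl p) => p.1.1.2
  | .inr (.inr p) => p.1.1

def rr {k : ℕ} : Idx k → ℤ
  | .inl _ => 0
  | .inr (.inl p) => if p.2 then 1 else -1
  | .inr (.inr p) => if p.2 then 2 else -2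

def zz {k : ℕ} (x : Idx k) : Fin (k + 1) → ℤ := Pi.single (lead x) 1 + Pi.single (sec x) (rr x)

theorem good_one : Good 1 := by constructor <;> decide

theorem zz_ty {k : ℕ} (x : Idx k) : Ty 0 (zz x) := by
  rcases x with i | ⟨⟨⟨i, j⟩, hij⟩, b⟩ | ⟨⟨j, hj⟩, b⟩
  · exact Or.inl ⟨i, 1, Or.inr good_one, by simp [zz, lead, sec, rr]⟩
  · have hj : j ≠ 0 := by
      intro h; subst h; exact absurd hij (by simp)
    by_cases hi : i = 0
    · subst hi
      refine Or.inr (Or.inr ⟨j, 1, if b then 1 else -1, hj, good_one, by cases b <;> simp, ?_⟩)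
      simp [zz, lead, sec, rr]
    · refine Or.inr (Or.inl ⟨i, j, 1, if b then 1 else -1, ne_of_lt hij, hi, hj, good_one,
        by cases b <;> simp, ?_⟩)
      simp [zz, lead, sec, rr]
  · refine Or.inr (Or.inr ⟨j, 1, if b then 2 else -2, hj, good_one, by cases b <;> simp, ?_⟩)
    simp [zz, lead, sec, rr]

theorem lead_sec {k : ℕ} (x : Idx k) : rr x = 0 ∨ lead x < sec x := by
  rcases x with i | ⟨⟨⟨i, j⟩, hij⟩, b⟩ | ⟨⟨j, hj⟩, b⟩
  · exact Or.inl rfl
  · exact Or.inr hij
  · exact Or.inr (Fin.pos_iff_ne_zero.2 hj)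

theorem zz_lead {k : ℕ} (x : Idx k) : zz x (lead x) = 1 := by
  rcases lead_sec x with h | h
  · simp [zz, h]
  · simp [zz, h.ne]

theorem zz_lt {k : ℕ} (x : Idx k) (l : Fin (k + 1)) (hl : l < lead x) : zz x l = 0 := by
  rcases lead_sec x with h | h
  · simp [zz, h, hl.ne]
  · simp [zz, hl.ne, (hl.trans h).ne]

theorem zz_inj {k : ℕ} (x y : Idx k) (h1 : lead x = lead y)
    (h : ∀ l, (zz x l : ZMod 5) = zz y l) : x = y := by
  have h2 : ∀ l, ((Pi.single (sec x) (rr x) : Fin (k + 1) → ℤ) l : ZMod 5) =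
      ((Pi.single (sec y) (rr y) : Fin (k + 1) → ℤ) l : ZMod 5) := by
    intro l
    have := h l
    simp only [zz, Pi.add_apply, h1, Int.cast_add] at this
    exact add_left_cancel this
  by_cases e : sec x = sec y
  · have h3 := h2 (sec x)
    rw [← e, Pi.single_eq_same, Pi.single_eq_same] at h3
    rcases x with i | ⟨⟨⟨i, j⟩, hij⟩, b⟩ | ⟨⟨j, hj⟩, b⟩ <;>
    rcases y with i' | ⟨⟨⟨i', j'⟩, hij'⟩, b'⟩ | ⟨⟨j', hj'⟩, b'⟩ <;>
    simp only [lead, sec, rr] at h1 e h3
    · rw [h1]
    · cases b' <;> exact absurd h3 (by simp <;> decide)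
    · cases b' <;> exact absurd h3 (by simp <;> decide)
    · cases b <;> exact absurd h3 (by simp <;> decide)
    · subst h1 e
      cases b <;> cases b' <;> first | rfl | exact absurd h3 (by simp <;> decide)
    · cases b <;> cases b' <;> exact absurd h3 (by simp <;> decide)
    · cases b <;> exact absurd h3 (by simp <;> decide)
    · cases b <;> cases b' <;> exact absurd h3 (by simp <;> decide)
    · subst e
      cases b <;> cases b' <;> first | rfl | exact absurd h3 (by simp <;> decide)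
  · have h3 := h2 (sec x)
    have h4 := h2 (sec y)
    rw [Pi.single_eq_same, Pi.single_eq_of_ne e] at h3
    rw [Pi.single_eq_same, Pi.single_eq_of_ne (Ne.symm e)] at h4
    rcases x with i | ⟨⟨⟨i, j⟩, hij⟩, b⟩ | ⟨⟨j, hj⟩, b⟩
    · rcases y with i' | ⟨⟨⟨i', j'⟩, hij'⟩, b'⟩ | ⟨⟨j', hj'⟩, b'⟩
      · exact absurd h1 e
      · cases b' <;> exact absurd h4 (by simp [rr] <;> decide)
      · cases b' <;> exact absurd h4 (by simp [rr] <;> decide)
    · cases b <;> exact absurd h3 (by simp [rr] <;> decide)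
    · cases b <;> exact absurd h3 (by simp [rr] <;> decide)

theorem zz_pair {k : ℕ} (x y : Idx k) (hxy : x ≠ y) (s t : ZMod 5)
    (h : ∀ l, s * zz x l + t * zz y l = 0) : s = 0 := by
  rcases lt_trichotomy (lead x) (lead y) with h1 | h1 | h1
  · simpa [zz_lead, zz_lt y _ h1] using h (lead x)
  · have h2 := h (lead x)
    rw [zz_lead, h1, zz_lead] at h2
    by_contra hs
    apply hxy
    apply zz_inj x y h1
    intro l
    have h3 := h l
    apply mul_left_cancel₀ hs
    push_cast at h2
    linear_combination h3 - (zz y l : ZMod 5) * h2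
  · have h2 : t = 0 := by simpa [zz_lead, zz_lt x _ h1] using h (lead y)
    simpa [zz_lead, h2] using h (lead x)

theorem bdd (n : ℕ) (m : ℕ) (v : Fin m → (Fin n → ZMod 5))
    (h : ∀ S : Finset (Fin m), S.card ≤ 2 →
      LinearIndependent (ZMod 5) (fun x : S => v (x : Fin m))) : m ≤ 5 ^ n := by
  have : Function.Injective v := by
    intro x y hxy
    have := (h {x, y} card_le_two).injective
      (a₁ := ⟨x, by simp⟩) (a₂ := ⟨y, by simp⟩) hxy
    exact congrArg Subtype.val this
  simpa using Fintype.card_le_of_injective v this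

theorem result (n : ℕ) (hn : 1 ≤ n) :
    Nat.gcd (5 - 1) (7 - 1) * n.choose 2 + n + 2 * (n - 1) ≤ sizeFn 5 7 n := by
  obtain ⟨k, rfl⟩ : ∃ k, n = k + 1 := ⟨n - 1, by omega⟩
  have hc : Nat.gcd (5 - 1) (7 - 1) * (k + 1).choose 2 + (k + 1) + 2 * (k + 1 - 1) =
      Fintype.card (Idx k) := by rw [card_idx]; rfl
  rw [hc]
  apply le_csSup
  · exact ⟨5 ^ (k + 1), fun m ⟨v, _, _, h, _⟩ => bdd _ m v h⟩
  · let e := (Fintype.equivFin (Idx k)).symm
    refine ⟨fun x l => (zz (e x) l : ZMod 5), fun x l => (zz (e x) l : ZMod 7), ?_, ?_, ?_⟩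
    · intro S
      exact (ind_iff (fun x l => (zz (e x) l : ZMod 5)) S).trans
        ((transfer 0 S (fun x => zz (e x)) (fun b _ => zz_ty _)).trans
          (ind_iff (fun x l => (zz (e x) l : ZMod 7)) S).symm)
    · intro S hS
      refine (ind_iff (fun x l => (zz (e x) l : ZMod 5)) S).2 ?_
      intro g hg b hb
      by_cases h1 : ∃ c ∈ S, c ≠ b
      · obtain ⟨c, hc, hcb⟩ := h1
        have : S = {b, c} := by
          symm
          apply eq_of_subset_of_card_le
          · intro x hx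
            rcases mem_insert.1 hx with rfl | hx
            · exact hb
            · rw [mem_singleton.1 hx]; exact hc
          · rw [card_pair hcb.symm]; exact hS
        rw [this, sum_pair hcb.symm] at hg
        exact zz_pair (e b) (e c) (fun h => hcb (e.injective h).symm) (g b) (g c)
          (fun l => by simpa using congrFun hg l)
      · push Not at h1
        have : S = {b} := eq_singleton_iff_unique_mem.2 ⟨hb, h1⟩
        rw [this, sum_singleton] at hg
        simpa [zz_lead] using congrFun hg (lead (e b))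
    · rw [eq_top_iff, ← (Pi.basisFun (ZMod 5) (Fin (k + 1))).span_eq]
      apply Submodule.span_mono
      rintro _ ⟨i, rfl⟩
      refine ⟨e.symm (.inl i), ?_⟩
      ext l
      simp [zz, lead, sec, rr, Pi.single_apply]

end Pool.Agent.Results.MP_f51a11_co.NotDowling
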